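import Mathlib
import Pool.Agent.H744R2.KZ.Props

/-! A finite family of partial isometries gives a type I piece. -/

open scoped ComplexOrder InnerProductSpace ComplexConjugate Topology
open Finset Filter

noncomputable section

namespace H744R2.KZ

open H759R2.Kad

universe u

namespace L_finaux

variable {H : Type u} [NormedAddCommGroup H] [InnerProductSpace ℂ H] [CompleteSpace H]

theorem eq_mul_pr {f p : H →L[ℂ] H} (hf : star f * f = p) (hp : IsPr p) : f * p = f := by
  obtain ⟨hp1, hp2⟩ := hp
  have h : star (f * p - f) * (f * p - f) = 0 := by
    rw [star_sub, star_mul, sub_mul, mul_sub, mul_sub]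
    have e1 : star p * star f * (f * p) = star p * (star f * f) * p := by
      simp only [mul_assoc]
    have e2 : star p * star f * f = star p * (star f * f) := by
      simp only [mul_assoc]
    have e3 : star f * (f * p) = (star f * f) * p := by
      simp only [mul_assoc]
    rw [e1, e2, e3, hf, hp1, hp2, hp2]
    simp
  have h2 := CStarRing.star_mul_self_eq_zero_iff (f * p - f) |>.1 h
  exact sub_eq_zero.1 h2

end L_finaux

open L_finaux in
theorem prove_L_fin : L_fin.{u} := by
  intro H _ _ _ M z e hz he I _ f hfM hff horth hzf hfull
  obtain ⟨heM, hep, heab⟩ := he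
  obtain ⟨hzp, hzM, hzc⟩ := hz
  obtain ⟨k, ⟨φ⟩⟩ := Finite.exists_equiv_fin I
  set p : H →L[ℂ] H := z * e with hp
  have hze : z * e = e * z := hzc e heM
  have hpp : IsPr p := by
    constructor
    · rw [hp, star_mul, hep.1, hzp.1, hze]
    · rw [hp]
      calc z * e * (z * e) = z * (e * z) * e := by simp only [mul_assoc]
        _ = (z * z) * (e * e) := by rw [← hze]; simp only [mul_assoc]
        _ = z * e := by rw [hzp.2, hep.2]
  have hfp : ∀ i, f i * p = f i := fun i => eq_mul_pr (hff i) hpp
  have hpf : ∀ i, p * star (f i) = star (f i) := fun i => by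
    have := congrArg star (hfp i)
    rwa [star_mul, hpp.1] at this
  have hfe : ∀ i, f i * e = f i := fun i => by
    calc f i * e = f i * (z * e) * e := by rw [← hp, hfp i]
      _ = f i * (z * (e * e)) := by simp only [mul_assoc]
      _ = f i := by rw [hep.2, ← hp, hfp i]
  have hef : ∀ i, e * star (f i) = star (f i) := fun i => by
    have := congrArg star (hfe i)
    rwa [star_mul, hep.1] at this
  have hfz : ∀ i, star (f i) * z = star (f i) := fun i => by
    have := congrArg star (hzf i)
    rwa [star_mul, hzp.1] at this
  refine ⟨k, fun i j => f (φ.symm i) * star (f (φ.symm j)), ?_, ?_, ?_, ?_⟩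
  · intro i j
    exact mul_mem (hfM _) (star_mem (hfM _))
  · constructor
    · intro i j l m
      by_cases hjl : j = l
      · subst hjl
        rw [if_pos rfl]
        calc f (φ.symm i) * star (f (φ.symm j)) * (f (φ.symm j) * star (f (φ.symm m)))
            = f (φ.symm i) * (star (f (φ.symm j)) * f (φ.symm j)) * star (f (φ.symm m)) := by
              simp only [mul_assoc]
          _ = _ := by rw [hff, hfp]
      · rw [if_neg hjl]
        calc f (φ.symm i) * star (f (φ.symm j)) * (f (φ.symm l) * star (f (φ.symm m)))
            = f (φ.symm i) * (star (f (φ.symm j)) * f (φ.symm l)) * star (f (φ.symm m)) := by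
              simp only [mul_assoc]
          _ = _ := by
              rw [horth _ _ (fun h => hjl (φ.symm.injective h)), mul_zero, zero_mul]
    · intro i j
      rw [star_mul, star_star]
  · have hx : ∀ j, (z - ∑ i, f (φ.symm i) * star (f (φ.symm i))) * f j = 0 := by
      intro j
      rw [sub_mul, hzf, Finset.sum_mul, Finset.sum_eq_single (φ j)]
      · rw [Equiv.symm_apply_apply, mul_assoc, hff, hfp, sub_self]
      · intro i _ hij
        rw [mul_assoc, horth _ _ (fun h => hij (by rw [← h, Equiv.apply_symm_apply])), mul_zero]
      · intro h
        exact absurd (mem_univ _) h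
    have h1 := hfull _ hx
    rw [sub_mul, hzp.2, Finset.sum_mul] at h1
    have h2 : ∀ i : Fin k, f (φ.symm i) * star (f (φ.symm i)) * z =
        f (φ.symm i) * star (f (φ.symm i)) := fun i => by rw [mul_assoc, hfz]
    rw [Finset.sum_congr rfl (fun i _ => h2 i)] at h1
    exact (sub_eq_zero.1 h1).symm
  · intro i
    set g := f (φ.symm i) with hg
    have hgM : g ∈ M := hfM _
    have hgg : star g * g = p := hff _
    have hgp : g * p = g := hfp _
    have hge : g * e = g := hfe _
    have heg : e * star g = star g := hef _
    refine ⟨mul_mem hgM (star_mem hgM), ⟨?_, ?_⟩, ?_⟩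
    · rw [star_mul, star_star]
    · calc g * star g * (g * star g) = g * (star g * g) * star g := by simp only [mul_assoc]
        _ = g * star g := by rw [hgg, hgp]
    · intro q hqM hq hgq
      have hqg : q * (g * star g) = q := by
        have := congrArg star hgq
        rwa [star_mul, star_mul, star_star, hq.1] at this
      have hq' : IsPr (star g * q * g) := by
        constructor
        · rw [star_mul, star_mul, star_star, hq.1, mul_assoc]
        · calc star g * q * g * (star g * q * g)
              = star g * (q * (g * star g)) * (q * g) := by simp only [mul_assoc]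
            _ = star g * (q * q) * g := by rw [hqg]; simp only [mul_assoc]
            _ = star g * q * g := by rw [hq.2]
      have heq' : e * (star g * q * g) = star g * q * g := by
        rw [← mul_assoc, ← mul_assoc, heg]
      obtain ⟨c, hc, hce⟩ := heab _ (mul_mem (mul_mem (star_mem hgM) hqM) hgM) hq' heq'
      refine ⟨c, hc, ?_⟩
      calc q = (g * star g) * q * (g * star g) := by rw [hgq, hqg]
        _ = g * (star g * q * g) * star g := by simp only [mul_assoc]
        _ = g * (c * e) * star g := by rw [hce]
        _ = (g * c) * (e * star g) := by simp only [mul_assoc]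
        _ = c * (g * star g) := by rw [← hc.2.2 g hgM, heg, mul_assoc]

end H744R2.KZ
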